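import Mathlib

/-!
# MP_cda11a: a totally disconnected CR-dynamical system with `Δ_X ⊆ G²` which fails the
`(1,2)`-shadowing property.
-/

namespace Pool.Agent.Results.MP_cda11a_an.ClosedRelation

open Set

/-- `(x,y) ∈ G^n`: there are `x = x_0, …, x_n = y` with `(x_k, x_{k+1}) ∈ G`. -/
def RelPow {X : Type*} (G : Set (X × X)) (n : ℕ) (x y : X) : Prop :=
  ∃ c : ℕ → X, c 0 = x ∧ c n = y ∧ ∀ k < n, (c k, c (k + 1)) ∈ G

/-- `(x_m)` is a `(V,1)`-pseudo-orbit. -/
def IsPseudoOrbit1 {X : Type*} (G : Set (X × X)) (V : Set (X × X)) (x : ℕ → X) : Prop :=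
  ∀ m, ∀ y, (x m, y) ∈ G → (y, x (m + 1)) ∈ V

/-- `y` `(U,2)`-shadows `(x_m)`: some trajectory `(y_m)` of `y` has `(y_m, x_m) ∈ U`. -/
def Shadows2 {X : Type*} (G : Set (X × X)) (U : Set (X × X)) (y : X) (x : ℕ → X) : Prop :=
  ∃ t : ℕ → X, t 0 = y ∧ (∀ m, (t m, t (m + 1)) ∈ G) ∧ ∀ m, (t m, x m) ∈ U

/-- The `(1,2)`-shadowing property; the entourages are the members of the (unique) uniformity
of the compact Hausdorff space `X`. -/
def OneTwoShadowing {X : Type*} [UniformSpace X] (G : Set (X × X)) : Prop :=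
  ∀ U ∈ uniformity X, ∃ V ∈ uniformity X, ∀ x : ℕ → X, IsPseudoOrbit1 G V x →
    ∃ y, Shadows2 G U y x

/-! ### Coding -/

abbrev K := ℕ → Fin 4

/-- the number formed by the first `N` base-4 digits -/
def pre (t : K) : ℕ → ℕ
  | 0 => 0
  | N + 1 => 4 * pre t N + (t N).val

def qc (t : K) (N : ℕ) : ℕ := (pre t N + 2) / 4
def rc (t : K) (N : ℕ) : ℕ := (pre t N + 1) / 2

lemma pre_congr {s t : K} : ∀ {N : ℕ}, (∀ k < N, s k = t k) → pre s N = pre t N
  | 0, _ => rfl
  | N + 1, h => by
    simp only [pre]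
    rw [pre_congr (N := N) (fun k hk => h k (by omega)), h N (by omega)]

/-- `q`-glued points -/
lemma q_glue {s t : K} (h : ∀ N, qc s N = qc t N) (hne : s ≠ t) :
    ∃ N, ((∀ k, N < k → t k = 0) ∧ (t N = 1 ∨ t N = 3)) ∨
      ((∀ k, N < k → t k = 3) ∧ (t N = 0 ∨ t N = 2)) := by
  classical
  have hex : ∃ N, s N ≠ t N := by
    by_contra hcon; push Not at hcon; exact hne (funext hcon)
  obtain ⟨N, hN, hmin⟩ : ∃ N, s N ≠ t N ∧ ∀ k < N, s k = t k :=
    ⟨Nat.find hex, Nat.find_spec hex, fun k hk => by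
      have := Nat.find_min hex hk; push Not at this; exact this⟩
  have hpre : pre s N = pre t N := pre_congr hmin
  have hval : (s N).val ≠ (t N).val := fun h => hN (Fin.ext h)
  have h1 := h (N + 1)
  simp only [qc, pre, hpre] at h1
  have hs := (s N).isLt
  have ht := (t N).isLt
  refine ⟨N, ?_⟩
  rcases lt_or_gt_of_ne hval with hlt | hlt
  · left
    have hN1 : (s N).val + 1 = (t N).val ∧ ((t N).val = 1 ∨ (t N).val = 3) := by omega
    have hall : ∀ j, pre t (N + 1 + j) = pre s (N + 1 + j) + 1 := by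
      intro j
      induction j with
      | zero => simp only [pre, hpre]; omega
      | succ j ih =>
        have h2 := h (N + 1 + j + 1)
        have h3 := h (N + 1 + j + 2)
        have e1 := (s (N + 1 + j)).isLt
        have e2 := (t (N + 1 + j)).isLt
        have e3 := (s (N + 1 + j + 1)).isLt
        have e4 := (t (N + 1 + j + 1)).isLt
        simp only [qc, pre] at h2 h3
        show pre t (N + 1 + j + 1) = pre s (N + 1 + j + 1) + 1
        simp only [pre]
        omega
    constructor
    · intro k hk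
      obtain ⟨j, rfl⟩ := Nat.exists_eq_add_of_lt hk
      have h2 := hall j
      have h3 := hall (j + 1)
      have e1 := (s (N + 1 + j)).isLt
      have e2 := (t (N + 1 + j)).isLt
      have h4 : pre t (N + 1 + (j + 1)) = 4 * pre t (N + 1 + j) + (t (N + 1 + j)).val := rfl
      have h5 : pre s (N + 1 + (j + 1)) = 4 * pre s (N + 1 + j) + (s (N + 1 + j)).val := rfl
      have h6 : (t (N + 1 + j)).val = 0 := by omega
      have h7 : N + j + 1 = N + 1 + j := by omega
      rw [h7]
      exact Fin.ext h6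
    · rcases hN1.2 with h2 | h2
      · left; exact Fin.ext h2
      · right; exact Fin.ext h2
  · right
    have hN1 : (t N).val + 1 = (s N).val ∧ ((t N).val = 0 ∨ (t N).val = 2) := by omega
    have hall : ∀ j, pre s (N + 1 + j) = pre t (N + 1 + j) + 1 := by
      intro j
      induction j with
      | zero => simp only [pre, hpre]; omega
      | succ j ih =>
        have h2 := h (N + 1 + j + 1)
        have h3 := h (N + 1 + j + 2)
        have e1 := (s (N + 1 + j)).isLt
        have e2 := (t (N + 1 + j)).isLt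
        have e3 := (s (N + 1 + j + 1)).isLt
        have e4 := (t (N + 1 + j + 1)).isLt
        simp only [qc, pre] at h2 h3
        show pre s (N + 1 + j + 1) = pre t (N + 1 + j + 1) + 1
        simp only [pre]
        omega
    constructor
    · intro k hk
      obtain ⟨j, rfl⟩ := Nat.exists_eq_add_of_lt hk
      have h2 := hall j
      have h3 := hall (j + 1)
      have e1 := (s (N + 1 + j)).isLt
      have e2 := (t (N + 1 + j)).isLt
      have h4 : pre t (N + 1 + (j + 1)) = 4 * pre t (N + 1 + j) + (t (N + 1 + j)).val := rfl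
      have h5 : pre s (N + 1 + (j + 1)) = 4 * pre s (N + 1 + j) + (s (N + 1 + j)).val := rfl
      have h6 : (t (N + 1 + j)).val = 3 := by omega
      have h7 : N + j + 1 = N + 1 + j := by omega
      rw [h7]
      exact Fin.ext h6
    · rcases hN1.2 with h2 | h2
      · left; exact Fin.ext h2
      · right; exact Fin.ext h2

/-- `r`-glued points -/
lemma r_glue {s t : K} (h : ∀ N, rc s N = rc t N) (hne : s ≠ t) :
    ∃ N, ((∀ k, N < k → t k = 0) ∧ t N = 2) ∨
      ((∀ k, N < k → t k = 3) ∧ t N = 1) := by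
  classical
  have hex : ∃ N, s N ≠ t N := by
    by_contra hcon; push Not at hcon; exact hne (funext hcon)
  obtain ⟨N, hN, hmin⟩ : ∃ N, s N ≠ t N ∧ ∀ k < N, s k = t k :=
    ⟨Nat.find hex, Nat.find_spec hex, fun k hk => by
      have := Nat.find_min hex hk; push Not at this; exact this⟩
  have hpre : pre s N = pre t N := pre_congr hmin
  have hval : (s N).val ≠ (t N).val := fun h => hN (Fin.ext h)
  have h1 := h (N + 1)
  simp only [rc, pre, hpre] at h1
  have hs := (s N).isLt
  have ht := (t N).isLt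
  refine ⟨N, ?_⟩
  rcases lt_or_gt_of_ne hval with hlt | hlt
  · left
    have hN1 : (s N).val + 1 = (t N).val ∧ ((t N).val = 2) := by omega
    have hall : ∀ j, pre t (N + 1 + j) = pre s (N + 1 + j) + 1 := by
      intro j
      induction j with
      | zero => simp only [pre, hpre]; omega
      | succ j ih =>
        have h2 := h (N + 1 + j + 1)
        have e1 := (s (N + 1 + j)).isLt
        have e2 := (t (N + 1 + j)).isLt
        simp only [rc, pre] at h2
        show pre t (N + 1 + j + 1) = pre s (N + 1 + j + 1) + 1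
        simp only [pre]
        omega
    constructor
    · intro k hk
      obtain ⟨j, rfl⟩ := Nat.exists_eq_add_of_lt hk
      have h2 := hall j
      have h3 := hall (j + 1)
      have e1 := (s (N + 1 + j)).isLt
      have e2 := (t (N + 1 + j)).isLt
      have h4 : pre t (N + 1 + (j + 1)) = 4 * pre t (N + 1 + j) + (t (N + 1 + j)).val := rfl
      have h5 : pre s (N + 1 + (j + 1)) = 4 * pre s (N + 1 + j) + (s (N + 1 + j)).val := rfl
      have h6 : (t (N + 1 + j)).val = 0 := by omega
      have h7 : N + j + 1 = N + 1 + j := by omega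
      rw [h7]
      exact Fin.ext h6
    · exact Fin.ext hN1.2
  · right
    have hN1 : (t N).val + 1 = (s N).val ∧ ((t N).val = 1) := by omega
    have hall : ∀ j, pre s (N + 1 + j) = pre t (N + 1 + j) + 1 := by
      intro j
      induction j with
      | zero => simp only [pre, hpre]; omega
      | succ j ih =>
        have h2 := h (N + 1 + j + 1)
        have e1 := (s (N + 1 + j)).isLt
        have e2 := (t (N + 1 + j)).isLt
        simp only [rc, pre] at h2
        show pre s (N + 1 + j + 1) = pre t (N + 1 + j + 1) + 1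
        simp only [pre]
        omega
    constructor
    · intro k hk
      obtain ⟨j, rfl⟩ := Nat.exists_eq_add_of_lt hk
      have h2 := hall j
      have h3 := hall (j + 1)
      have e1 := (s (N + 1 + j)).isLt
      have e2 := (t (N + 1 + j)).isLt
      have h4 : pre t (N + 1 + (j + 1)) = 4 * pre t (N + 1 + j) + (t (N + 1 + j)).val := rfl
      have h5 : pre s (N + 1 + (j + 1)) = 4 * pre s (N + 1 + j) + (s (N + 1 + j)).val := rfl
      have h6 : (t (N + 1 + j)).val = 3 := by omega
      have h7 : N + j + 1 = N + 1 + j := by omega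
      rw [h7]
      exact Fin.ext h6
    · exact Fin.ext hN1.2

/-- a point is not both `q`-glued and `r`-glued -/
lemma not_both {s t u : K} (h : ∀ N, qc s N = qc t N) (hne : s ≠ t)
    (h' : ∀ N, rc u N = rc t N) : u = t := by
  by_contra hne'
  obtain ⟨N, hN⟩ := q_glue h hne
  obtain ⟨M, hM⟩ := r_glue h' hne'
  rcases hN with ⟨hN1, hN2⟩ | ⟨hN1, hN2⟩ <;> rcases hM with ⟨hM1, hM2⟩ | ⟨hM1, hM2⟩
  · rcases lt_trichotomy N M with hlt | rfl | hlt
    · rw [hN1 M hlt] at hM2; exact absurd hM2 (by decide)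
    · rw [hM2] at hN2; rcases hN2 with h | h <;> exact absurd h (by decide)
    · rw [hM1 N hlt] at hN2; rcases hN2 with h | h <;> exact absurd h (by decide)
  · have h1 := hN1 (max N M + 1) (by omega)
    have h2 := hM1 (max N M + 1) (by omega)
    rw [h1] at h2; exact absurd h2 (by decide)
  · have h1 := hN1 (max N M + 1) (by omega)
    have h2 := hM1 (max N M + 1) (by omega)
    rw [h1] at h2; exact absurd h2 (by decide)
  · rcases lt_trichotomy N M with hlt | rfl | hlt
    · rw [hN1 M hlt] at hM2; exact absurd hM2 (by decide)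
    · rw [hM2] at hN2; rcases hN2 with h | h <;> exact absurd h (by decide)
    · rw [hM1 N hlt] at hN2; rcases hN2 with h | h <;> exact absurd h (by decide)

/-! ### The space and the relation -/

def cA (t : K) : Bool × (ℕ → ℕ) := (false, qc t)
def cB (t : K) : Bool × (ℕ → ℕ) := (true, rc t)

lemma pre_cont (N : ℕ) : Continuous fun t : K => pre t N := by
  induction N with
  | zero => exact continuous_const
  | succ N ih =>
    have h1 : Continuous fun t : K => (t N).val :=
      continuous_of_discreteTopology.comp (continuous_apply N)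
    exact (continuous_const.mul ih).add h1

lemma cA_cont : Continuous cA := by
  refine continuous_const.prodMk (continuous_pi fun N => ?_)
  exact (continuous_of_discreteTopology (f := fun n : ℕ => (n + 2) / 4)).comp (pre_cont N)

lemma cB_cont : Continuous cB := by
  refine continuous_const.prodMk (continuous_pi fun N => ?_)
  exact (continuous_of_discreteTopology (f := fun n : ℕ => (n + 1) / 2)).comp (pre_cont N)

/-- the space -/
abbrev X := {z : Bool × (ℕ → ℕ) // z ∈ range cA ∪ range cB}

instance : CompactSpace X :=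
  isCompact_iff_compactSpace.1 ((isCompact_range cA_cont).union (isCompact_range cB_cont))

def xA (t : K) : X := ⟨cA t, Or.inl ⟨t, rfl⟩⟩
def xB (t : K) : X := ⟨cB t, Or.inr ⟨t, rfl⟩⟩

lemma xA_cont : Continuous xA := cA_cont.subtype_mk _
lemma xB_cont : Continuous xB := cB_cont.subtype_mk _

/-- the relation -/
def G : Set (X × X) := range (fun t : K => (xA t, xB t)) ∪ range (fun t : K => (xB t, xA t))

lemma G_closed : IsClosed G :=
  ((isCompact_range (xA_cont.prodMk xB_cont)).union
    (isCompact_range (xB_cont.prodMk xA_cont))).isClosed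

lemma xA_inj {s t : K} (h : xA s = xA t) : ∀ N, qc s N = qc t N := by
  intro N
  have := congrArg (fun z : X => z.1.2 N) h
  exact this

lemma xB_inj {s t : K} (h : xB s = xB t) : ∀ N, rc s N = rc t N := by
  intro N
  have := congrArg (fun z : X => z.1.2 N) h
  exact this

lemma xAB_ne {s t : K} : xA s ≠ xB t := by
  intro h
  have := congrArg (fun z : X => z.1.1) h
  exact Bool.noConfusion this

/-- successors of `xA t` -/
lemma G_xA {t : K} {y : X} (h : (xA t, y) ∈ G) : ∃ u, y = xB u ∧ xA u = xA t := by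
  rcases h with ⟨u, hu⟩ | ⟨u, hu⟩
  · have h1 := congrArg Prod.fst hu
    have h2 := congrArg Prod.snd hu
    exact ⟨u, h2.symm, h1⟩
  · exact absurd (congrArg Prod.fst hu).symm xAB_ne

lemma G_xB {t : K} {y : X} (h : (xB t, y) ∈ G) : ∃ u, y = xA u ∧ xB u = xB t := by
  rcases h with ⟨u, hu⟩ | ⟨u, hu⟩
  · exact absurd (congrArg Prod.fst hu) xAB_ne
  · have h1 := congrArg Prod.fst hu
    have h2 := congrArg Prod.snd hu
    exact ⟨u, h2.symm, h1⟩

/-! ### Trajectories keep one coordinate -/

lemma traj {t : ℕ → X} (ht : ∀ m, (t m, t (m + 1)) ∈ G) {u₀ : K} (h0 : t 0 = xA u₀) :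
    ∃ u : ℕ → K, (∀ m, t (2 * m) = xA (u (2 * m)) ∧ t (2 * m + 1) = xB (u (2 * m)) ∧
      t (2 * m + 1) = xB (u (2 * m + 1)) ∧ t (2 * m + 2) = xA (u (2 * m + 1))) := by
  have hA : ∀ m, ∃ v, t (2 * m) = xA v := by
    intro m
    induction m with
    | zero => exact ⟨u₀, h0⟩
    | succ m ih =>
      obtain ⟨v, hv⟩ := ih
      have h1 := ht (2 * m)
      rw [hv] at h1
      obtain ⟨w, hw, _⟩ := G_xA h1
      have h2 := ht (2 * m + 1)
      rw [hw] at h2
      obtain ⟨z, hz, _⟩ := G_xB h2
      exact ⟨z, hz⟩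
  have hstep : ∀ m, ∃ w z : K, t (2 * m) = xA w ∧ t (2 * m + 1) = xB w ∧
      t (2 * m + 1) = xB z ∧ t (2 * m + 2) = xA z := by
    intro m
    obtain ⟨v, hv⟩ := hA m
    have h1 := ht (2 * m)
    rw [hv] at h1
    obtain ⟨w, hw, hw2⟩ := G_xA h1
    have h2 := ht (2 * m + 1)
    rw [hw] at h2
    obtain ⟨z, hz, hz2⟩ := G_xB h2
    exact ⟨w, z, by rw [hv, hw2], hw, by rw [hw, hz2], hz⟩
  choose w z hwz using hstep
  refine ⟨fun k => if k % 2 = 0 then w (k / 2) else z (k / 2), fun m => ?_⟩
  have e1 : (2 * m) % 2 = 0 := by omega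
  have e2 : (2 * m) / 2 = m := by omega
  have e3 : ¬ ((2 * m + 1) % 2 = 0) := by omega
  have e4 : (2 * m + 1) / 2 = m := by omega
  simp only [e1, e2, e3, e4, if_true, if_false]
  exact hwz m

lemma traj_const {t : ℕ → X} (ht : ∀ m, (t m, t (m + 1)) ∈ G) {u₀ : K} (h0 : t 0 = xA u₀) :
    (∀ m, t (2 * m) = t 0) ∨ (∀ m, t (2 * m + 1) = t 1) := by
  obtain ⟨u, hu⟩ := traj ht h0
  -- links
  have linkR : ∀ m, xB (u (2 * m)) = xB (u (2 * m + 1)) := fun m => by
    rw [← (hu m).2.1, ← (hu m).2.2.1]
  have linkQ : ∀ m, xA (u (2 * m + 1)) = xA (u (2 * m + 2)) := fun m => by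
    have h1 := (hu (m + 1)).1
    have h2 := (hu m).2.2.2
    rw [show 2 * (m + 1) = 2 * m + 2 by ring] at h1
    rw [← h2, ← h1]
  by_cases hq : ∃ s, s ≠ u 0 ∧ xA s = xA (u 0)
  · left
    have key : ∀ v : K, xA v = xA (u 0) → ∃ s, s ≠ v ∧ xA s = xA v := by
      intro v hv
      by_cases h : v = u 0
      · rw [h]; exact hq
      · exact ⟨u 0, fun h' => h h'.symm, hv.symm⟩
    have hstay : ∀ v w : K, xA v = xA (u 0) → xB v = xB w → w = v := by
      intro v w hv hw
      obtain ⟨s, hs, hs2⟩ := key v hv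
      exact not_both (xA_inj hs2) hs (xB_inj hw.symm)
    have hall : ∀ m, xA (u (2 * m)) = xA (u 0) := by
      intro m
      induction m with
      | zero => rfl
      | succ m ih =>
        have h1 := hstay _ _ ih (linkR m)
        show xA (u (2 * m + 2)) = _
        rw [← linkQ m, h1, ih]
    intro m
    rw [(hu m).1, (hu 0).1, hall m]
  · by_cases hr : ∃ s, s ≠ u 0 ∧ xB s = xB (u 0)
    · right
      have key : ∀ v : K, xB v = xB (u 0) → ∃ s, s ≠ v ∧ xB s = xB v := by
        intro v hv
        by_cases h : v = u 0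
        · rw [h]; exact hr
        · exact ⟨u 0, fun h' => h h'.symm, hv.symm⟩
      have hstay : ∀ v w : K, xB v = xB (u 0) → xA v = xA w → w = v := by
        intro v w hv hw
        obtain ⟨s, hs, hs2⟩ := key v hv
        by_contra hne
        exact hs (not_both (xA_inj hw.symm) hne (xB_inj hs2))
      have hall : ∀ m, xB (u (2 * m)) = xB (u 0) := by
        intro m
        induction m with
        | zero => rfl
        | succ m ih =>
          have h1 := hstay _ _ ((linkR m).symm.trans ih) (linkQ m)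
          show xB (u (2 * m + 2)) = _
          rw [h1, ← linkR m, ih]
      intro m
      have h1 := (hu m).2.1
      have h2 := (hu 0).2.1
      rw [h1, hall m]
      exact h2.symm
    · left
      push Not at hq hr
      have hall : ∀ m, u (2 * m) = u 0 := by
        intro m
        induction m with
        | zero => rfl
        | succ m ih =>
          have h1 : u (2 * m + 1) = u 0 := by
            by_contra hne
            exact hr _ hne (by rw [← linkR m, ih])
          show u (2 * m + 2) = u 0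
          by_contra hne
          exact hq _ hne (by rw [← linkQ m, h1])
      intro m
      rw [(hu m).1, (hu 0).1, hall m]

/-! ### Drifting pseudo-orbits -/

/-- digits of `n` (with `N` digits) followed by ones -/
def pt (N n : ℕ) : K := fun k => if k < N then ⟨n / 4 ^ (N - 1 - k) % 4, Nat.mod_lt _ (by norm_num)⟩
  else 1

lemma pre_pt {N n : ℕ} (hn : n < 4 ^ N) : ∀ j ≤ N, pre (pt N n) j = n / 4 ^ (N - j) := by
  intro j
  induction j with
  | zero =>
    intro _
    simp only [pre, Nat.sub_zero]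
    exact (Nat.div_eq_of_lt hn).symm
  | succ j ih =>
    intro hj
    have hlt : j < N := by omega
    simp only [pre, pt, hlt, if_true]
    rw [ih (by omega)]
    have e : N - j = (N - 1 - j) + 1 := by omega
    have e2 : N - (j + 1) = N - 1 - j := by omega
    rw [e, e2, pow_succ, ← Nat.div_div_eq_div_mul]
    omega

lemma pt_unglued_q {N n : ℕ} {s : K} (h : xA s = xA (pt N n)) : s = pt N n := by
  by_contra hne
  obtain ⟨M, hM⟩ := q_glue (xA_inj h) hne
  have h1 : pt N n (max N M + 1) = 1 := by
    simp only [pt]; rw [if_neg (by omega)]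
  rcases hM with ⟨h2, _⟩ | ⟨h2, _⟩
  · have := h2 (max N M + 1) (by omega)
    rw [h1] at this; exact absurd this (by decide)
  · have := h2 (max N M + 1) (by omega)
    rw [h1] at this; exact absurd this (by decide)

lemma pt_unglued_r {N n : ℕ} {s : K} (h : xB s = xB (pt N n)) : s = pt N n := by
  by_contra hne
  obtain ⟨M, hM⟩ := r_glue (xB_inj h) hne
  have h1 : pt N n (max N M + 1) = 1 := by
    simp only [pt]; rw [if_neg (by omega)]
  rcases hM with ⟨h2, _⟩ | ⟨h2, _⟩
  · have := h2 (max N M + 1) (by omega)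
    rw [h1] at this; exact absurd this (by decide)
  · have := h2 (max N M + 1) (by omega)
    rw [h1] at this; exact absurd this (by decide)

lemma arith (n : ℕ) : (∀ i, (n / 4 ^ i + 2) / 4 = ((n + 1) / 4 ^ i + 2) / 4) ∨
    (∀ i, (n / 4 ^ i + 1) / 2 = ((n + 1) / 4 ^ i + 1) / 2) := by
  induction n using Nat.strong_induction_on with
  | _ n ih =>
    have hsucc : ∀ m i, m / 4 ^ (i + 1) = (m / 4) / 4 ^ i := by
      intro m i
      rw [pow_succ', Nat.div_div_eq_div_mul]
    by_cases h3 : n % 4 = 3
    · obtain ⟨m, rfl⟩ : ∃ m, n = 4 * m + 3 := ⟨n / 4, by omega⟩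
      have e1 : (4 * m + 3) / 4 = m := by omega
      have e2 : (4 * m + 3 + 1) / 4 = m + 1 := by omega
      rcases ih m (by omega) with h | h
      · left
        intro i
        cases i with
        | zero => simp only [pow_zero, Nat.div_one]; omega
        | succ i => rw [hsucc, hsucc, e1, e2]; exact h i
      · right
        intro i
        cases i with
        | zero => simp only [pow_zero, Nat.div_one]; omega
        | succ i => rw [hsucc, hsucc, e1, e2]; exact h i
    · have e : (n + 1) / 4 = n / 4 := by omega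
      by_cases h1 : n % 4 = 1
      · right
        intro i
        cases i with
        | zero => simp only [pow_zero, Nat.div_one]; omega
        | succ i => rw [hsucc, hsucc, e]
      · left
        intro i
        cases i with
        | zero => simp only [pow_zero, Nat.div_one]; omega
        | succ i => rw [hsucc, hsucc, e]

lemma close_or {N n : ℕ} (hn : n + 1 < 4 ^ N) :
    (∀ j ≤ N, qc (pt N n) j = qc (pt N (n + 1)) j) ∨
    (∀ j ≤ N, rc (pt N n) j = rc (pt N (n + 1)) j) := by
  rcases arith n with h | h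
  · left
    intro j hj
    simp only [qc]
    rw [pre_pt (by omega) j hj, pre_pt hn j hj]
    exact h _
  · right
    intro j hj
    simp only [rc]
    rw [pre_pt (by omega) j hj, pre_pt hn j hj]
    exact h _

/-- basic entourages -/
lemma ent_basis {V : Set (X × X)} (hV : V ∈ uniformity X) :
    ∃ N, ∀ a b : X, a.1.1 = b.1.1 → (∀ k ≤ N, a.1.2 k = b.1.2 k) → (a, b) ∈ V := by
  rw [uniformity_subtype, Filter.mem_comap] at hV
  obtain ⟨W, hW, hWV⟩ := hV
  rw [uniformity_prod, Filter.mem_inf_iff_superset] at hW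
  obtain ⟨W1, hW1, W2, hW2, hW12⟩ := hW
  rw [Filter.mem_comap] at hW1 hW2
  obtain ⟨B1, hB1, hB1'⟩ := hW1
  obtain ⟨B2, hB2, hB2'⟩ := hW2
  rw [Pi.uniformity, Filter.mem_iInf] at hB2
  obtain ⟨I, hI, Vi, hVi, hB2eq⟩ := hB2
  obtain ⟨N, hN⟩ := hI.bddAbove
  refine ⟨N, fun a b hab hk => hWV ?_⟩
  refine hW12 ⟨hB1' ?_, hB2' ?_⟩
  · show ((a.1.1, b.1.1) : Bool × Bool) ∈ B1
    rw [hab]
    exact mem_uniformity_of_eq hB1 rfl
  · show ((a.1.2, b.1.2) : (ℕ → ℕ) × (ℕ → ℕ)) ∈ B2
    rw [hB2eq]
    refine mem_iInter.2 fun i => ?_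
    have h1 := hVi i
    rw [Filter.mem_comap] at h1
    obtain ⟨C, hC, hC'⟩ := h1
    refine hC' ?_
    show ((a.1.2 i.1, b.1.2 i.1) : ℕ × ℕ) ∈ C
    rw [hk i.1 (hN i.2)]
    exact mem_uniformity_of_eq hC rfl

/-- the entourage that is not shadowable -/
def U₀ : Set (X × X) := {p | p.1.1.1 = p.2.1.1 ∧ p.1.1.2 1 = p.2.1.2 1}

lemma U₀_mem : U₀ ∈ uniformity X := by
  have hopen : IsOpen U₀ := by
    have h1 : IsOpen {p : X × X | p.1.1.1 = p.2.1.1} := by
      have hc : Continuous fun p : X × X => ((p.1.1.1, p.2.1.1) : Bool × Bool) := by fun_prop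
      exact (isOpen_discrete {q : Bool × Bool | q.1 = q.2}).preimage hc
    have h2 : IsOpen {p : X × X | p.1.1.2 1 = p.2.1.2 1} := by
      have hc : Continuous fun p : X × X => ((p.1.1.2 1, p.2.1.2 1) : ℕ × ℕ) := by fun_prop
      exact (isOpen_discrete {q : ℕ × ℕ | q.1 = q.2}).preimage hc
    exact h1.inter h2
  rw [← nhdsSet_diagonal_eq_uniformity]
  refine hopen.mem_nhdsSet.2 ?_
  rintro ⟨a, b⟩ hab
  have : a = b := hab
  subst this
  exact ⟨rfl, rfl⟩

theorem not_shadowing : ¬ OneTwoShadowing G := by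
  classical
  intro h
  obtain ⟨V, hV, hsh⟩ := h U₀ U₀_mem
  obtain ⟨N₀, hN₀⟩ := ent_basis hV
  obtain ⟨N, hN⟩ : ∃ N, N = N₀ + 1 := ⟨_, rfl⟩
  obtain ⟨L, hL⟩ : ∃ L, L + 1 = 4 ^ N :=
    ⟨4 ^ N - 1, Nat.sub_add_cancel (Nat.one_le_pow _ _ (by norm_num))⟩
  -- the clipped counter
  let c : ℕ → ℕ := fun n => min n L
  have hclt : ∀ n, c n < 4 ^ N := fun n => by
    have : c n ≤ L := min_le_right _ _
    omega
  have hcor : ∀ n, (∀ j ≤ N, qc (pt N (c n)) j = qc (pt N (c (n + 1))) j) ∨
      (∀ j ≤ N, rc (pt N (c n)) j = rc (pt N (c (n + 1))) j) := by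
    intro n
    by_cases hn : n < L
    · have e1 : c n = n := min_eq_left hn.le
      have e2 : c (n + 1) = n + 1 := min_eq_left hn
      rw [e1, e2]
      exact close_or (by omega)
    · have e1 : c n = L := min_eq_right (by omega)
      have e2 : c (n + 1) = L := min_eq_right (by omega)
      rw [e1, e2]
      exact Or.inl fun _ _ => rfl
  let mid : ℕ → ℕ := fun n =>
    if ∀ j ≤ N, rc (pt N (c n)) j = rc (pt N (c (n + 1))) j then c (n + 1) else c n
  let x : ℕ → X := fun m => if m % 2 = 0 then xA (pt N (c (m / 2))) else xB (pt N (mid (m / 2)))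
  have hx0 : ∀ m, x (2 * m) = xA (pt N (c m)) := by
    intro m
    have e1 : (2 * m) % 2 = 0 := by omega
    have e2 : (2 * m) / 2 = m := by omega
    simp only [x, e1, e2, if_true]
  have hx1 : ∀ m, x (2 * m + 1) = xB (pt N (mid m)) := by
    intro m
    have e1 : ¬ ((2 * m + 1) % 2 = 0) := by omega
    have e2 : (2 * m + 1) / 2 = m := by omega
    simp only [x, e1, e2, if_false]
  have hpo : IsPseudoOrbit1 G V x := by
    intro m y hy
    rcases Nat.even_or_odd' m with ⟨k, rfl | rfl⟩
    · rw [hx0] at hy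
      rw [hx1]
      obtain ⟨u, rfl, hu⟩ := G_xA hy
      rw [pt_unglued_q hu]
      refine hN₀ _ _ rfl fun j hj => ?_
      show rc (pt N (c k)) j = rc (pt N (mid k)) j
      by_cases hc : ∀ j ≤ N, rc (pt N (c k)) j = rc (pt N (c (k + 1))) j
      · have : mid k = c (k + 1) := if_pos hc
        rw [this]; exact hc j (by omega)
      · have : mid k = c k := if_neg hc
        rw [this]
    · rw [hx1] at hy
      rw [show 2 * k + 1 + 1 = 2 * (k + 1) by ring, hx0]
      obtain ⟨u, rfl, hu⟩ := G_xB hy
      rw [pt_unglued_r hu]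
      refine hN₀ _ _ rfl fun j hj => ?_
      show qc (pt N (mid k)) j = qc (pt N (c (k + 1))) j
      by_cases hc : ∀ j ≤ N, rc (pt N (c k)) j = rc (pt N (c (k + 1))) j
      · have : mid k = c (k + 1) := if_pos hc
        rw [this]
      · have : mid k = c k := if_neg hc
        rw [this]
        rcases hcor k with h1 | h1
        · exact h1 j (by omega)
        · exact absurd h1 hc
  obtain ⟨y, t, ht0, htG, htU⟩ := hsh x hpo
  -- the start is on side A
  have hside : (t 0).1.1 = false := by
    have := (htU 0).1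
    rw [show (0 : ℕ) = 2 * 0 from rfl, hx0] at this
    exact this
  obtain ⟨u₀, hu₀⟩ : ∃ u₀, t 0 = xA u₀ := by
    rcases (t 0).2 with ⟨u, hu⟩ | ⟨u, hu⟩
    · exact ⟨u, Subtype.ext hu.symm⟩
    · rw [← hu] at hside; exact Bool.noConfusion hside
  have hNpos : 1 ≤ N := by omega
  have hpre0 : pre (pt N (c 0)) 1 = 0 := by
    rw [pre_pt (hclt 0) 1 hNpos]
    have : c 0 = 0 := Nat.zero_min _
    rw [this, Nat.zero_div]
  have hpreL : pre (pt N L) 1 = 3 := by
    rw [pre_pt (by omega) 1 hNpos]
    obtain ⟨M, rfl⟩ : ∃ M, N = M + 1 := ⟨N - 1, by omega⟩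
    rw [Nat.add_sub_cancel]
    have h4 : 0 < 4 ^ M := by positivity
    rw [pow_succ] at hL
    rw [Nat.div_eq_iff h4]
    constructor <;> omega
  have hcL : c L = L := min_self _
  have hcL1 : c (L + 1) = L := min_eq_right (by omega)
  have hmidL : mid L = L := by
    simp only [mid]
    split_ifs
    · exact hcL1
    · exact hcL
  rcases traj_const htG hu₀ with hc | hc
  · have h1 := (htU (2 * 0)).2
    have h2 := (htU (2 * L)).2
    rw [hx0] at h1 h2
    simp only at h1 h2
    rw [hc L] at h2
    have h3 : (xA (pt N (c 0))).1.2 1 = (xA (pt N (c L))).1.2 1 := h1.symm.trans h2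
    have h4 : qc (pt N (c 0)) 1 = qc (pt N (c L)) 1 := h3
    simp only [qc] at h4
    rw [hcL, hpre0, hpreL] at h4
    omega
  · have h1 := (htU (2 * 0 + 1)).2
    have h2 := (htU (2 * L + 1)).2
    rw [hx1] at h1 h2
    simp only at h1 h2
    rw [hc L] at h2
    have h3 : (xB (pt N (mid 0))).1.2 1 = (xB (pt N (mid L))).1.2 1 := h1.symm.trans h2
    have h4 : rc (pt N (mid 0)) 1 = rc (pt N (mid L)) 1 := h3
    have h5 : rc (pt N (mid 0)) 1 = rc (pt N (c 0)) 1 := by
      by_cases hc : ∀ j ≤ N, rc (pt N (c 0)) j = rc (pt N (c (0 + 1))) j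
      · have : mid 0 = c (0 + 1) := if_pos hc
        rw [this]; exact (hc 1 hNpos).symm
      · have : mid 0 = c 0 := if_neg hc
        rw [this]
    rw [h5, hmidL] at h4
    simp only [rc] at h4
    rw [hpre0, hpreL] at h4
    omega

lemma diag_sub (x : X) : RelPow G 2 x x := by
  rcases x.2 with ⟨u, hu⟩ | ⟨u, hu⟩
  · have hx : x = xA u := Subtype.ext hu.symm
    refine ⟨fun k => if k = 1 then xB u else xA u, by simp [hx], by simp [hx], ?_⟩
    intro k hk
    interval_cases k
    · exact Or.inl ⟨u, rfl⟩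
    · exact Or.inr ⟨u, rfl⟩
  · have hx : x = xB u := Subtype.ext hu.symm
    refine ⟨fun k => if k = 1 then xA u else xB u, by simp [hx], by simp [hx], ?_⟩
    intro k hk
    interval_cases k
    · exact Or.inr ⟨u, rfl⟩
    · exact Or.inl ⟨u, rfl⟩

/-- There is a totally disconnected (nonempty, compact Hausdorff) space `X` and a nonempty
closed relation `G` on `X` with `Δ_X ⊆ G²` such that `(X,G)` fails the `(1,2)`-shadowing
property.  So the assertion of Q1 is false. -/
theorem result : ∃ (X : Type) (_ : UniformSpace X) (G : Set (X × X)),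
    Nonempty X ∧ CompactSpace X ∧ T2Space X ∧ TotallyDisconnectedSpace X ∧
    G.Nonempty ∧ IsClosed G ∧ (∀ x, RelPow G 2 x x) ∧ ¬ OneTwoShadowing G :=
  ⟨X, inferInstance, G, ⟨xA 0⟩, inferInstance, inferInstance, inferInstance,
    ⟨_, Or.inl ⟨0, rfl⟩⟩, G_closed, diag_sub, not_shadowing⟩

end Pool.Agent.Results.MP_cda11a_an.ClosedRelation
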